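import Mathlib
import Pool.Agent.Q236.CR.Stm
import Pool.Agent.TH892.SW.S5
import Pool.Agent.TH892.OW.B3

/-!
# Project CR (helper757), part 2: the applications to primes `|n² + a|`

The statements `S_T1` and `S_E` at the end are the two hand-ins (slots 2 and 3 of MP_391708_nt). Everything between is
a piece with a complete proof in its docstring. `L` always stands for `log X`, `z = ⌊L^E⌋`, `s` is a sign.
`ff z` is the indicator function of the primes minus `lamz z` divided by the logarithm (`TH892/SW/S5.lean`), `fz w z` is the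
difference of two sieve models (`TH892/OW/B3.lean`), `wt n = 1 / log n`.
-/

set_option autoImplicit false

namespace Run7.h757.CR

open Finset Filter MeasureTheory Topology
open Pool.Agent.H469R2.NK (e)
open Pool.Agent.TH892.SW (ff wt)
open Pool.Agent.TH892.OW (fz)

/-- the product of `1 - (-a | w) / (w - 1)` over the odd primes `w ≤ X` -/
noncomputable def hprod (a : ℤ) (X : ℕ) : ℝ :=
  ∏ w ∈ (range (X + 1)).filter (fun w => Nat.Prime w ∧ w ≠ 2), (1 - (jacobiSym (-a) w : ℝ) / ((w : ℝ) - 1))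

/-- the number of the `n` in the window `(m, m + H]` for which `|n² + a|` is a prime -/
def P (a : ℤ) (m H : ℕ) : ℕ := #((Ioc m (m + H)).filter (fun n : ℕ => Nat.Prime ((n : ℤ) ^ 2 + a).natAbs))

/-- the sum of `1 / log |n² + a|` over the window -/
noncomputable def Wt (a : ℤ) (m H : ℕ) : ℝ := ∑ n ∈ Ioc m (m + H), wt ((n : ℤ) ^ 2 + a).natAbs

/-! ### common pieces -/

/-- **FI**: `ff` with additive characters in almost all short intervals (from SIA and LZ). Proof. Let `g n = Λ(n) - lamz z n`,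
`S m = ∑_{m < n ≤ m + Y} g(n) e(a n / q)`. SIA and LZ (`q ≤ z`) with `U + 4` give `∑_m |S m|² ≤ x Y² / L^(U+2)`, `L = log x`. For
`x ≤ m ≤ 2 x` the weight `wt` changes on `(m, m + Y]` by at most `Y / (x log² x)`, and `|g| ≤ 2 L` (`lamz z n ≤ (Vz z)⁻¹ ≤ L`, see
`Pool.Agent.TH892.OW.Vz_log`), so `∑ wt(n) g(n) e(a n / q) = wt(m + 1) S m + O (Y · 2 L · Y / (x L²))`, and `Y / x ≤ L^(-C)`. Finally
`ff z n = wt(n) g(n) + (1_prime(n) - wt(n) Λ(n))` and the last bracket lives on the proper prime powers, at most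
`2 L (Y / √x + 1)` of them in a window (perfect squares, cubes, ...: for each exponent `k ≤ 2 L` at most `Y / √x + 1`
because `(t + 1)^k - t^k ≥ √x` for `t^k ≥ x`, `k ≥ 2`), each of absolute value at most `1`; this is `≤ Y / L^U` because `Y ≥ x^(1/3)`. -/
def S_FI : Prop := ∀ B U : ℕ, ∃ C : ℕ, ∀ E : ℕ, ∃ X₀ : ℕ, ∀ x : ℕ, X₀ ≤ x → ∀ z q : ℕ, 1 ≤ q →
  (q : ℝ) ≤ Real.log x ^ B → q ≤ z → (z : ℝ) ≤ Real.log x ^ E → ∀ a Y : ℕ,
  (x : ℝ) ^ (1 / 3 : ℝ) * Real.log x ^ C ≤ Y → (Y : ℝ) * Real.log x ^ C ≤ x →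
  ∑ m ∈ Ioc x (2 * x), ‖∑ n ∈ Ioc m (m + Y), (ff z (n : ℤ) : ℂ) * e ((a : ℝ) * n / q)‖ ^ 2 ≤
    x * (Y : ℝ) ^ 2 / Real.log x ^ U

/-- **HT**: the constant, sharp form, both signs. Proof. For `a < 0` this is `Pool.Agent.TH892.SW.hK_most` (`K = -a`,
`HP K = hprod (-K)`). For `a > 0` use `Pool.Agent.R460.SC.tail_both` (leading coefficient `1`, middle coefficient `0`, `q = 1`,
`ρ = 1/4`): the discriminant is `-4 a`, `jacobiSym (-4 a) p = jacobiSym (-a) p` for odd `p`, `SJ` is the sum of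
`jacobiSym D p / p` over `z < p ≤ N`; the passage to the product is `Pool.Agent.R460.SC.PJ_lim`
(`hprod a N = hprod a z * PJ (-4 a) z N`). In fact `tail_both` gives both signs at once. The number `a = 0` and
the squares `-a` go to the exceptional set. -/
def S_HT : Prop := ∀ U V : ℕ, ∃ E1 : ℕ, ∀ E : ℕ, E1 ≤ E → ∃ X₀ : ℕ, ∀ X : ℕ, X₀ ≤ X →
  ∃ Bad ⊆ Icc (-(X : ℤ)) X, (#Bad : ℝ) ≤ X / Real.log X ^ U ∧ ∀ a ∈ Icc (-(X : ℤ)) X, a ∉ Bad →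
    ¬ IsSquare (-a) ∧ ∃ h : ℝ, 0 < h ∧ Tendsto (fun N : ℕ => hprod a N) atTop (𝓝 h) ∧
      |hprod a ⌊Real.log X ^ E⌋₊ - h| ≤ h / Real.log X ^ V

/-- **HG**: the constant is bounded below and close to its product cut at a small power of `log X`, for almost all `a`
of both signs. Proof. For `a < 0`: `Pool.Agent.TH892.OW.h_good` (with `SW.hK_most` for the existence of `h`). For `a > 0`: the same
proof (`OW/B7.lean`): from `z = ⌊L^E⌋` on by HT; between the small cut `w` and `z` by the variance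
`∑_{a ≤ X} |∑_{w < p ≤ z} (-a / p) / p|² ≤ 2 X / w` (see `low_K` in `TH892/SW/S4.lean`; the same lemma for `-a` instead of `K`: the second
moment of a sum of real characters over an interval of integers), and the comparison `cmp_cut`; the lower bound `δ0` from the
same variance with `w` a large constant (`hprod a w ≥ 1 / w^3` by `prod_rk_ge`). -/
def S_HG : Prop := ∀ η : ℝ, 0 < η → ∃ δ0 : ℝ, 0 < δ0 ∧ ∀ ε1 : ℝ, 0 < ε1 → ∀ u : ℕ, 1 ≤ u →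
  ∃ X₀ : ℕ, ∀ X : ℕ, X₀ ≤ X → ∃ Bad ⊆ Icc (-(X : ℤ)) X, (#Bad : ℝ) ≤ η * X ∧ ∀ a ∈ Icc (-(X : ℤ)) X, a ∉ Bad →
    ¬ IsSquare (-a) ∧ ∃ h : ℝ, δ0 ≤ h ∧ Tendsto (fun N : ℕ => hprod a N) atTop (𝓝 h) ∧
      |hprod a ⌊Real.log X ^ (1 / (u : ℝ))⌋₊ - h| ≤ ε1 * h

/-! ### first application: every window of length `X^(1/6) (log X)^B`, almost all `a` -/

/-- **GAL**: Gallagher's lemma. Proof. `G(β) = (∑_k c_k e(kβ)) · (∑_{t=1}^Y e(-tβ))` is a trigonometric polynomial whose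
coefficient at `m` is `∑_{m < k ≤ m + Y} c_k`, so `∫_0^1 |G|² = ∑_m |∑_{m < k ≤ m+Y} c_k|²` (finite Parseval), and for `|β| ≤ 1/(2Y)`
`|∑_{t=1}^Y e(-tβ)| = |sin (π Y β) / sin (π β)| ≥ 2 Y / π`. Finally `π² / 4 ≤ 3`, and the integrand has period `1`. -/
def S_GAL : Prop := ∀ (K Y : ℕ) (c : ℕ → ℂ), 1 ≤ Y →
  ∫ β in (-(1 / (2 * (Y : ℝ))))..(1 / (2 * (Y : ℝ))), ‖∑ k ∈ Icc 1 K, c k * e ((k : ℝ) * β)‖ ^ 2 ≤
    3 / (Y : ℝ) ^ 2 * ∑ m ∈ Icc (-(Y : ℤ)) K, ‖∑ k ∈ (Icc 1 K).filter (fun k : ℕ => m < k ∧ (k : ℤ) ≤ m + Y), c k‖ ^ 2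

/-- **WEY**: Weyl's inequality for squares in a window. Proof. Van der Corput (`Pool.Agent.Helper170.Weyl.vdc`):
`|W|² ≤ H + 2 ∑_{1 ≤ h < H} min (H, 1 / (2 ‖2 h α‖)) ≤ H + 2 ∑_{k ≤ 2H} min (2H, 1 / ‖k α‖)`, and the `k` are split into blocks of
length `q`: in a block the numbers `k α` are `1/(2q)`-separated modulo one up to one repetition, so a block contributes at most
`10 H + 10 q (1 + log q)`, and there are at most `2H / q + 1` blocks. -/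
def S_WEY : Prop := ∃ C : ℝ, 1 ≤ C ∧ ∀ (m H q : ℕ) (a : ℤ) (α : ℝ), 1 ≤ H → 1 ≤ q → IsCoprime a (q : ℤ) →
  |α - a / q| ≤ 1 / (q : ℝ) ^ 2 →
  ‖∑ n ∈ Ioc m (m + H), e (α * (n : ℝ) ^ 2)‖ ^ 2 ≤ C * ((H : ℝ) ^ 2 / q + H + q) * (1 + Real.log q)

/-- **T1M**: the second moment over `a` for a fixed window (from FI, GAL, WEY). Proof. All values `s (n² + a)` are at most
`K = 2 ⌈X L^(2C)⌉`. Let `c_k = ff z k` for `1 ≤ k ≤ K`, `F(α) = ∑ c_k e(kα)`, `W(α) = ∑_{m < n ≤ m+H} e(n² α)`. For `s = 1` the inner sum is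
`∫_0^1 F(α) conj (W(α)) e(-aα) dα`, for `s = -1` it is `∫_0^1 F(α) W(α) e(aα) dα`, so by Bessel's inequality the left side is at most
`∫_0^1 |F|² |W|²`. Choose in this order `B₁ = U + 2C + 8`; `D = U' = 2 B₁ + U + 2 C + 10`; `C_F` = the `C` of FI for `(B₁ + 1, U')`;
`B₂ = 2 B₁ + 2 C + D + C_F + U + 10`; `E1 = B₁ + 2`; `B = B₂ + 2 C + C_F + 10`. Dirichlet: every `α` has an approximation
`|α - a/q| ≤ 1/(qQ)`, `q ≤ Q = ⌊H² / L^(B₁)⌋`, `(a, q) = 1`.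
 * `q > L^(B₁)`: WEY gives `|W|² ≤ 4 C H² L^(1 - B₁)`, and `∫_0^1 |F|² = ∑ c_k² ≤ 9 K (2L)²`
   (`Pool.Agent.TH892.SW.sq_ff`), so these `α` contribute at most `X H² / (2 L^U)`.
 * `q ≤ L^(B₁)`: `|W| ≤ H`, `|β| = |α - a/q| ≤ 2 L^(B₁) / H² ≤ 1 / (2Y)` with `Y = ⌊H² / L^(B₂)⌋`. GAL for `c_k e(ka/q)`:
   the arc contributes at most `H² · 3 Y^(-2) ∑_m |∑_{m < k ≤ m+Y, 1 ≤ k ≤ K} c_k e(ka/q)|²`. Let `x₀ = ⌈X / L^D⌉`. The `m ≤ x₀` and
   `m > K - Y`: trivially `(x₀ + 2Y) (6 L Y)²`, where `Y ≤ X L^(2C - B₂)`. The others are covered by `Ioc x (2x)`, `x = 2^j x₀`,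
   `j ≤ L`, and FI (with `q ≤ L^(B₁) ≤ (log x)^(B₁+1)`, `q ≤ z`) gives `x Y² / (log x)^(U')` each. There are at most `2 L^(2 B₁)` arcs. -/
def S_T1M : Prop := ∀ U C : ℕ, ∃ E1 : ℕ, ∀ E : ℕ, E1 ≤ E → ∃ B X₀ : ℕ, ∀ X : ℕ, X₀ ≤ X → ∀ m H : ℕ,
  (X : ℝ) ^ (1 / 6 : ℝ) * Real.log X ^ B ≤ H → (m : ℝ) + H ≤ √X * Real.log X ^ C → ∀ s : ℤ, (s = 1 ∨ s = -1) →
  ∑ a ∈ Icc (-(X : ℤ)) X, (∑ n ∈ Ioc m (m + H), ff ⌊Real.log X ^ E⌋₊ (s * ((n : ℤ) ^ 2 + a))) ^ 2 ≤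
    X * (H : ℝ) ^ 2 / Real.log X ^ U

/-- **T1** (the hand-in; from T1M and HT). Proof. Chebyshev: for all but `X / L^(U+1)` of the `a` the sums of `ff z` over `n² + a` and
over `-(n² + a)` are at most `H / L^(U+5)` (T1M with `3U + 20`). The `a` with `|n² + a| ≤ 1` for some `n` of the window: at most
`3 H ≤ X^(2/3)`. For `a = -K < 0` the claim is `Pool.Agent.TH892.SW.one_window` (with `2^b ≥ L^(U+3)`, so that
`z^(C1 b) = exp (O ((log L)²)) ≤ H / L^(U+9)`) together with HT (`HP K = hprod (-K)`), `h ≥ L^(-1)` (`SW.HP_ge`) and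
`∑ wt ≥ H / (4L)`. For `a > 0` the same: the weight `wt (n² + a)` decreases in `n`, `SW.abel_anti`, and the fundamental lemma
`SW.flq` holds for every integer `K = -a`. -/
def S_T1 : Prop := ∀ U C : ℕ, ∃ B X₀ : ℕ, ∀ X : ℕ, X₀ ≤ X → ∀ m H : ℕ,
  (X : ℝ) ^ (1 / 6 : ℝ) * Real.log X ^ B ≤ H → (m : ℝ) + H ≤ √X * Real.log X ^ C →
  ∃ Bad ⊆ Icc (-(X : ℤ)) X, (#Bad : ℝ) ≤ X / Real.log X ^ U ∧ ∀ a ∈ Icc (-(X : ℤ)) X, a ∉ Bad →
    (∀ n ∈ Ioc m (m + H), 2 ≤ ((n : ℤ) ^ 2 + a).natAbs) ∧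
    ∃ h : ℝ, 0 < h ∧ Tendsto (fun N : ℕ => hprod a N) atTop (𝓝 h) ∧
      |(P a m H : ℝ) - h * Wt a m H| ≤ (h * Wt a m H) / Real.log X ^ U

/-! ### second application: almost all pairs `(a, m)`, windows of length `T log X` -/

/-- the second moment over the pairs -/
noncomputable def M2 (g : ℤ → ℝ) (s : ℤ) (X m₀ M H : ℕ) : ℝ :=
  ∑ a ∈ Icc (-(X : ℤ)) X, ∑ m ∈ Ioc m₀ (m₀ + M), (∑ n ∈ Ioc m (m + H), g (s * ((n : ℤ) ^ 2 + a))) ^ 2

/-- **E0**: the second moment in terms of sums over arithmetic progressions. Proof. Let `J = Icc u v`, `gJ` = `g` on `J` and `0`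
outside. Under the hypothesis one may replace `g` by `gJ` in `M2` (`g` vanishes at `v ≤ 0`) and then extend the sum over `a` to all
integers. Write `n = m + i`. Expanding the square, the sum over `a` of `gJ(s((m+i)² + a)) gJ(s((m+j)² + a))` is
`∑_k gJ(k) gJ(k + s (j - i)(2m + i + j))`. The terms `i = j` give `H M ∑_J g²`. By symmetry the other terms are at most twice those with
`i < j`, `d = j - i`. Sum over `m = m₀ + t`, `1 ≤ t ≤ M`: for `s = 1` the arguments are `c + 2 d t` with `c = k + d (2 m₀ + i + j)`, for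
`s = -1` (replace `t` by `M + 1 - t`) they are `c + 2 d t` with `c = k - d (2 m₀ + 2 (M + 1) + i + j)`; in both cases `k = c + d r` with an
integer `r`. If all `c + 2dt` are in `J` then `c ∈ Icc (u - 2d) (v - 2dM)`, and these `c` contribute at most `R`. If some but not all of them are
in `J` then `u - 2dM ≤ c < u` or `v - 2dM < c ≤ v`, at most `4 d M` values of `c`, each contributing at most `M G0²`.
Total `H M ∑ g² + H² (4 H M² G0²) + H² R`. -/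
def S_E0 : Prop := ∀ (g : ℤ → ℝ) (G0 R : ℝ) (s : ℤ) (X m₀ M H : ℕ) (u v : ℤ), (∀ k, k ≤ 0 → g k = 0) →
  (∀ k, |g k| ≤ G0) → (s = 1 ∨ s = -1) → 1 ≤ u → u ≤ v → 0 ≤ R →
  (∀ a ∈ Icc (-(X : ℤ)) X, ∀ n ∈ Ioc m₀ (m₀ + M + H), s * ((n : ℤ) ^ 2 + a) ≤ 0 ∨ s * ((n : ℤ) ^ 2 + a) ∈ Icc u v) →
  (∀ d ∈ Icc 1 H, ∀ r : ℤ,
    ∑ c ∈ (Icc (u - 2 * d) (v - 2 * d * M)).filter (fun c => c + d * r ∈ Icc u v),
      |g (c + d * r)| * |∑ t ∈ Icc (1 : ℤ) M, g (c + 2 * d * t)| ≤ R) →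
  M2 g s X m₀ M H ≤ H * M * (∑ k ∈ Icc u v, g k ^ 2) + 8 * (H : ℝ) ^ 3 * (M : ℝ) ^ 2 * G0 ^ 2 + (H : ℝ) ^ 2 * R

/-- **APM**: `ff` in progressions on short intervals, in mean square (from FI). Proof. `∑_{t ≤ M} ff(c + q t)` is the sum of `ff n` over
`c < n ≤ c + qM`, `n ≡ c (mod q)`, which is `(1/q) ∑_{b < q} e(-b c / q) ∑_{c < n ≤ c + qM} ff(n) e(b n / q)`; so its square is at most the mean
over `b` of the squares of the windows of length `Y = qM`. Cover `c > x₀ = ⌈X / L^D⌉` by the ranges `Ioc x (2x)`, `x = 2^j x₀`, and use FI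
(`Y ≥ X^(1/3) L^(B')` and `Y L^(B') ≤ X` with `B'` large in terms of `D` and `C_F`); for `-q ≤ c ≤ x₀` use the trivial
bound `(3 · 2L · M)²` with `D = U + 2C + 10`. -/
def S_APM : Prop := ∀ U C Q : ℕ, ∃ E1 : ℕ, ∀ E : ℕ, E1 ≤ E → ∃ B X₀ : ℕ, ∀ X : ℕ, X₀ ≤ X → ∀ q M : ℕ, 1 ≤ q →
  (q : ℝ) ≤ Real.log X ^ Q → (X : ℝ) ^ (1 / 3 : ℝ) * Real.log X ^ B ≤ M → (M : ℝ) * Real.log X ^ B ≤ X →
  ∑ c ∈ Icc (-(q : ℤ)) ⌊X * Real.log X ^ C⌋₊, (∑ t ∈ Icc (1 : ℤ) M, ff ⌊Real.log X ^ E⌋₊ (c + q * t)) ^ 2 ≤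
    X * (M : ℝ) ^ 2 / Real.log X ^ U

/-- **E1**: the second moment of `ff` (from E0 and APM). Proof. First let `M ≤ √X / L^(C+3)` (block). Then the values `s (n² + a)` lie in
an interval `J` of length at most `3X` below `2 X L^(2C)`; `J = Icc u v` with `u ≥ 1` (if all values are `≤ 0` then `M2 = 0`).
`∑_J ff² ≤ 2 #(primes in J) + 2 (Vz z)⁻² ∑_J wt²  ≤ K₀ X / (2L)` by `Pool.Agent.TH892.OW.primes_int`, `wt_sum`, `ff_sq`. `|ff| ≤ 3 L`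
(`sq_ff`). `R`: by Cauchy-Schwarz `≤ 3 · 2L · (4X)^(1/2) · (APM)^(1/2) ≤ X M / L^(U+1)`. `8 H³ M² G0² ≤ X M / L^(U+1)` because
`M ≤ √X`. In general split `(m₀, m₀ + M]` into `⌈M L^(C+3) / √X⌉` blocks of almost equal lengths and add the bounds. -/
def S_E1 : Prop := ∃ K₀ : ℝ, 1 ≤ K₀ ∧ ∀ U C D : ℕ, ∃ E1 : ℕ, ∀ E : ℕ, E1 ≤ E → ∃ B X₀ : ℕ, ∀ X : ℕ, X₀ ≤ X →
  ∀ m₀ M H : ℕ, 1 ≤ H → (H : ℝ) ≤ Real.log X ^ D → (X : ℝ) ^ (1 / 3 : ℝ) * Real.log X ^ B ≤ M →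
  (m₀ : ℝ) + M ≤ √X * Real.log X ^ C → ∀ s : ℤ, (s = 1 ∨ s = -1) →
  M2 (ff ⌊Real.log X ^ E⌋₊) s X m₀ M H ≤ X * M * (K₀ * H / Real.log X + (H : ℝ) ^ 2 / Real.log X ^ U)

/-- **E2**: the second moment of the difference of two sieve models (from E0; model: `fz_off`, `fz_diag` in
`TH892/OW/B3.lean` and `second_fz` in `OW/B5c.lean`). Proof. Blocks as in E1. Diagonal: `fz² ≤ (Vz z)⁻¹ (lz z + lz w)` and `OW.lz_up`:
`∑_J ≤ 14 X (Vz z)⁻¹ ≤ X √L / 4`. Off-diagonal, `q = 2d ≤ 2H`, `k` with `2H ≤ 2^k`, `k ≤ 2 D log L`: by `OW.lz_ap` the sum over `t` is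
`M (Gz z c q - Gz w c q)` up to `2 (1/2)^b M (Vz z)⁻¹ + 2 z^(C1 b)`, and by `OW.Gdiff` the difference is at most
`(Vz w)⁻¹ (4 k / w + 1_{p | c, p | q for a prime p > w})`. The first part contributes `14 X M (Vz w)⁻¹ 4 k / w`; in the second `p | d` (`p` odd), so
`p` divides `c + d r`, where `lz z` vanishes and `lz w ≤ (Vz w)⁻¹`; the number of such `c` is at most `k (3X / w + 1)`:
at most `M (Vz w)⁻² k (4 X / w)`. With `w = ⌊L^(1/u)⌋` both are `≤ X M / (8 (log L)²)` (as in `OW.params_w`). -/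
def S_E2 : Prop := ∀ C D E u : ℕ, 1 ≤ E → 1 ≤ u → ∃ X₀ : ℕ, ∀ X : ℕ, X₀ ≤ X →
  ∀ m₀ M H : ℕ, 1 ≤ H → (H : ℝ) ≤ Real.log X ^ D → (X : ℝ) ^ (1 / 3 : ℝ) ≤ M →
  (m₀ : ℝ) + M ≤ √X * Real.log X ^ C → ∀ s : ℤ, (s = 1 ∨ s = -1) →
  M2 (fz ⌊Real.log X ^ (1 / (u : ℝ))⌋₊ ⌊Real.log X ^ E⌋₊) s X m₀ M H ≤
    X * M * (H * √(Real.log X) + (H : ℝ) ^ 2 / Real.log (Real.log X) ^ 2)

/-- **E** (the hand-in; from E1, E2, HG). Proof for `H ≤ L^3`. HG with `η = ε / 10` gives `δ0`; `ε₁` small in terms of `ε`; `b` with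
`(1/2)^b ≤ ε₁ / 2`, `u = 2 C1 b` so that `w^(C1 b) ≤ √L`. By Chebyshev, for all but `ε X M / 2` pairs the sums over the window of `ff z` are
at most `ε₁ δ0 H / L` and those of `fz w z` at most `ε₁ δ0 H` (`T` large in terms of `ε₁, δ0`). For all but few pairs all `|n² + a|` of the
window lie between `X / L^5` and `2 X L^(2C)` (for fixed `m` at most `H (2 X / L^5 + 1)` values of `a` are excluded), so `|wt - 1/L| ≤ ε₁ / L`. The
fundamental lemma `SW.flq` for `w`: `∑ lamz w = hprod a w · H (1 + O(ε₁))` (window longer than `w^(C1 b)`). Then as in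
`OW.one_scale` (`OW/B8.lean`).
For `L^3 < H ≤ M`: cut the window into `⌊H / L^2⌋` windows of length `H₁ = ⌊L^2⌋` and a rest of length `≤ L^2`; by Cauchy-Schwarz the second
moments are at most `(H / H₁)²` times those for `H₁` (the starting points `m + j H₁` are in `(m₀, m₀ + 2M]`) plus trivial terms
`X M (9 L · L^2)^2`, and the rest of the proof is unchanged, with the exceptional pairs `|n² + a| < X / L^5`
replaced by: for every pair the number of `n` of the window with `|n² + a| < X / L^D` is small on average. (This second part may be dropped, then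
the hand-in has the condition `H ≤ L^D` for a fixed arbitrary `D`.) -/
def S_E : Prop := ∀ (ε : ℝ) (C D : ℕ), 0 < ε → ∃ T : ℝ, 0 < T ∧ ∃ B X₀ : ℕ, ∀ X : ℕ, X₀ ≤ X → ∀ m₀ M H : ℕ,
  (X : ℝ) ^ (1 / 3 : ℝ) * Real.log X ^ B ≤ M → (m₀ : ℝ) + M ≤ √X * Real.log X ^ C → T * Real.log X ≤ H →
  (H : ℝ) ≤ Real.log X ^ D → ∃ Bad ⊆ Icc (-(X : ℤ)) X ×ˢ Ioc m₀ (m₀ + M), (#Bad : ℝ) ≤ ε * (X * M) ∧
    ∀ a ∈ Icc (-(X : ℤ)) X, ∀ m ∈ Ioc m₀ (m₀ + M), (a, m) ∉ Bad →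
      ∃ h : ℝ, 0 < h ∧ Tendsto (fun N : ℕ => hprod a N) atTop (𝓝 h) ∧
        |(P a m H : ℝ) - h * Wt a m H| ≤ ε * (h * Wt a m H)

end Run7.h757.CR
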